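import Pool.Agent.Helper72.RA.Defs2

set_option autoImplicit false

/-!
# MP_717de3_co: modules PICK and PICK1
-/

namespace Pool.Agent.Helper72.RA

open Real Finset MeasureTheory Filter

open scoped Classical

theorem pick_qi_pos (q k : ℕ) (hq : 1 ≤ q) : 0 < qi q k := by
  rw [qi]
  have : (0 : ℝ) < q := by exact_mod_cast hq
  positivity

theorem pick_qi_mul (q a b : ℕ) : qi q (a + b) = qi q a * qi q b := by
  rw [qi, qi, qi, pow_add, mul_inv]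

theorem pick_pow_mul (q a b : ℕ) (hq : 1 ≤ q) (hab : b ≤ a) : (q : ℝ) ^ a * qi q b = (q : ℝ) ^ (a - b) := by
  have h0 : (0 : ℝ) < q := by exact_mod_cast hq
  rw [qi]
  have h1 : (q : ℝ) ^ a = (q : ℝ) ^ (a - b) * (q : ℝ) ^ b := by
    rw [← pow_add]; congr 1; omega
  rw [h1, mul_assoc, mul_inv_cancel₀ (pow_ne_zero _ h0.ne'), mul_one]

theorem pick_m2 (q m k e : ℕ) (hq : 1 ≤ q) (hm : q ^ 1000 ≤ m) (hk : k + e ≤ 2000) :
    (q : ℝ) ^ e ≤ (m : ℝ) ^ 2 * qi q k := by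
  have h0 : (1 : ℝ) ≤ q := by exact_mod_cast hq
  have h1 : (q : ℝ) ^ 1000 ≤ m := by exact_mod_cast hm
  have h2 : (q : ℝ) ^ 2000 ≤ (m : ℝ) ^ 2 := by
    calc (q : ℝ) ^ 2000 = ((q : ℝ) ^ 1000) ^ 2 := by rw [← pow_mul]
      _ ≤ (m : ℝ) ^ 2 := by gcongr
  calc (q : ℝ) ^ e ≤ (q : ℝ) ^ (2000 - k) := pow_le_pow_right₀ h0 (by omega)
    _ = (q : ℝ) ^ 2000 * qi q k := (pick_pow_mul q 2000 k hq (by omega)).symm
    _ ≤ (m : ℝ) ^ 2 * qi q k := mul_le_mul_of_nonneg_right h2 (pick_qi_pos q k hq).le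

/-- The targets of pool `3` in an interval which are not in a small set. -/
theorem pick_card (q m : ℕ) (θ : Fin (NN m) → ℝ) (hG : Good q m θ) (X : Finset (Fin (NN m)))
    (hX : X.card ≤ 2) (x y L : ℝ) (hx : 0 ≤ x) (hy : y ≤ π) (hL : qi q 1970 ≤ L / 110)
    (hxy : L / 110 ≤ y - x) (hbig : 1 / 20000 * ((m : ℝ) ^ 2 * L) ≥ 2) :
    3 / 10000 * ((m : ℝ) ^ 2 * L) ≤ ((univ.filter fun t : Fin (NN m) =>
      (t : ℕ) % 4 = 3 ∧ x ≤ θ t ∧ θ t ≤ y ∧ t ∉ X).card : ℝ) := by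
  have h1 := (hG.reg 3 (by norm_num) x y hx hy (hL.trans hxy)).1
  have h2 : (cnt 3 θ x y : ℝ) ≤ ((univ.filter fun t : Fin (NN m) =>
      (t : ℕ) % 4 = 3 ∧ x ≤ θ t ∧ θ t ≤ y ∧ t ∉ X).card : ℝ) + 2 := by
    have h3 : cnt 3 θ x y ≤ (univ.filter fun t : Fin (NN m) =>
      (t : ℕ) % 4 = 3 ∧ x ≤ θ t ∧ θ t ≤ y ∧ t ∉ X).card + X.card := by
      rw [cnt]
      refine (card_le_card ?_).trans (card_union_le _ _)
      intro t ht
      rw [mem_filter] at ht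
      rw [mem_union, mem_filter]
      by_cases h : t ∈ X
      · exact Or.inr h
      · exact Or.inl ⟨mem_univ _, ht.2.1, ht.2.2.1, ht.2.2.2, h⟩
    have h4 : cnt 3 θ x y ≤ (univ.filter fun t : Fin (NN m) =>
      (t : ℕ) % 4 = 3 ∧ x ≤ θ t ∧ θ t ≤ y ∧ t ∉ X).card + 2 := by omega
    exact_mod_cast h4
  have hm0 : (0 : ℝ) ≤ (m : ℝ) ^ 2 := by positivity
  have h5 : 7 / 20000 * ((m : ℝ) ^ 2 * L) ≤ 49 / 50 * ((m : ℝ) ^ 2 / 8 * ((y - x) / π)) := by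
    have hpi : π < 315 / 100 := by have := Real.pi_lt_d2; linarith
    have hL0 : 0 ≤ (m : ℝ) ^ 2 * L := by linarith
    have h6 : L / 110 / π ≤ (y - x) / π := by gcongr
    have h7 : L / 110 / (315 / 100) ≤ L / 110 / π := by
      rcases le_or_gt 0 L with h | h
      · gcongr
      · have hq0 : 0 ≤ qi q 1970 := by rw [qi]; positivity
        linarith
    have h8 : (m : ℝ) ^ 2 / 8 * (L / 110 / (315 / 100)) ≤ (m : ℝ) ^ 2 / 8 * ((y - x) / π) :=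
      mul_le_mul_of_nonneg_left (h7.trans h6) (by positivity)
    have h9 : (m : ℝ) ^ 2 / 8 * (L / 110 / (315 / 100)) = 1 / 2772 * ((m : ℝ) ^ 2 * L) := by ring
    rw [h9] at h8
    nlinarith
  linarith

theorem pick_sub {ι : Type} [Fintype ι] (s : Finset ι) (f : ι → ℝ) (hf : ∀ i, 0 ≤ f i) :
    ∑ i ∈ s, f i ≤ ∑ i, f i :=
  sum_le_sum_of_subset_of_nonneg (subset_univ s) (fun i _ _ => hf i)

theorem pick_num (M : ℝ) (hM : 0 < M) : (10000 / 3 / M) * (M / 10 ^ 5) = 1 / 30 := by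
  field_simp
  norm_num

theorem st_PICK1 (hS : ST_SIGMA) : ST_PICK1 := by
  refine eventually_atTop.2 ⟨10 ^ 9, ?_⟩
  intro q hq m hm1 hm2 θ hG X hX β r0 r1 hβ0 hβ1 hβ2 hr0 hr1 hr3
  have hq1 : 1 ≤ q := le_trans (by norm_num) hq
  have hqR : (10 : ℝ) ^ 9 ≤ q := by exact_mod_cast hq
  have hp := pick_qi_pos q 1968 hq1
  obtain ⟨x, y, hx, hy, hxy, hxyσ⟩ := hS β r0 r1 hβ0 hβ1 hβ2 hr0 (by linarith) hr3
  have h2 : qi q 1970 ≤ qi q 1968 / 110 := by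
    have h3 := pick_qi_mul q 1968 2
    have h4 : qi q 2 ≤ 1 / 110 := by
      rw [qi, inv_eq_one_div]
      apply one_div_le_one_div_of_le (by norm_num)
      nlinarith
    calc qi q 1970 = qi q 1968 * qi q 2 := h3
      _ ≤ qi q 1968 * (1 / 110) := mul_le_mul_of_nonneg_left h4 hp.le
      _ = qi q 1968 / 110 := by ring
  have h3 := pick_m2 q m 1968 1 hq1 hm1 (by norm_num)
  rw [pow_one] at h3
  have hcard := pick_card q m θ hG X hX x y (qi q 1968) (by linarith) (by linarith) h2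
    (by linarith) (by linarith)
  have hpos : 0 < (univ.filter fun t : Fin (NN m) =>
      (t : ℕ) % 4 = 3 ∧ x ≤ θ t ∧ θ t ≤ y ∧ t ∉ X).card := by
    have : (0 : ℝ) < ((univ.filter fun t : Fin (NN m) =>
      (t : ℕ) % 4 = 3 ∧ x ≤ θ t ∧ θ t ≤ y ∧ t ∉ X).card : ℝ) := by linarith
    exact_mod_cast this
  obtain ⟨t, ht⟩ := card_pos.1 hpos
  rw [mem_filter] at ht
  obtain ⟨-, ht1, ht2, ht3, ht4⟩ := ht
  obtain ⟨h5, h6⟩ := hxyσ (θ t) ht2 ht3
  exact ⟨t, ht4, ht1, by linarith, by linarith, h5, h6⟩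

theorem st_PICK (hH : ST_HALL) (hS : ST_SIGMA) (hW : ST_WSUM) : ST_PICK := by
  filter_upwards [hW, eventually_ge_atTop (10 ^ 9)] with q hWq hq
  intro m hm1 hm2 D θ hG X hX β r0 r1 hβ hr
  obtain ⟨hsum, hrgl⟩ := hWq m hm1 hm2 D
  have hq1 : 1 ≤ q := le_trans (by norm_num) hq
  have hqR : (10 : ℝ) ^ 9 ≤ q := by exact_mod_cast hq
  have hp := pick_qi_pos q 1360 hq1
  have hrpos : ∀ k, 0 < rgl D k := fun k => hp.trans_le (hrgl k).1
  have hchoice : ∀ k, ∃ x y : ℝ, 1 / 50 ≤ x ∧ y ≤ π - 1 / 50 ∧ rgl D k / 110 ≤ y - x ∧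
      ∀ σ : ℝ, x ≤ σ → σ ≤ y →
        r0 k ≤ cos (β k) + cos σ / sin σ * sin (β k) ∧
          cos (β k) + cos σ / sin σ * sin (β k) ≤ r1 k := by
    intro k
    obtain ⟨h1, h2, h3⟩ := hβ k
    obtain ⟨h4, h5, h6⟩ := hr k
    have h7 := hrpos k
    obtain ⟨x, y, hx, hy, hxy, hσ⟩ := hS (β k) (r0 k) (r1 k) h1 h2 h3 h4 (by linarith) h6
    refine ⟨x, y, hx, hy, ?_, hσ⟩
    have : rgl D k / 110 ≤ (r1 k - r0 k) / 110 := by linarith
    linarith
  choose x y hx hy hxy hσ using hchoice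
  have h2 : qi q 1970 ≤ qi q 1360 / 110 := by
    have h3 := pick_qi_mul q 1360 610
    have h4 : qi q 610 ≤ 1 / 110 := by
      rw [qi, inv_eq_one_div]
      apply one_div_le_one_div_of_le (by norm_num)
      calc (110 : ℝ) ≤ q := by linarith
        _ = (q : ℝ) ^ 1 := (pow_one _).symm
        _ ≤ (q : ℝ) ^ 610 := pow_le_pow_right₀ (by linarith) (by norm_num)
    calc qi q 1970 = qi q 1360 * qi q 610 := h3
      _ ≤ qi q 1360 * (1 / 110) := mul_le_mul_of_nonneg_left h4 hp.le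
      _ = qi q 1360 / 110 := by ring
  have h3 := pick_m2 q m 1360 1 hq1 hm1 (by norm_num)
  rw [pow_one] at h3
  have hm0 : (0 : ℝ) < (m : ℝ) ^ 2 := by
    by_contra hcon
    have : (m : ℝ) ^ 2 * qi q 1360 ≤ 0 := mul_nonpos_of_nonpos_of_nonneg (by linarith) hp.le
    linarith
  set A : D.K → Finset (Fin (NN m)) := fun k => univ.filter fun t : Fin (NN m) =>
      (t : ℕ) % 4 = 3 ∧ x k ≤ θ t ∧ θ t ≤ y k ∧ t ∉ X with hA
  have hcard : ∀ k, 3 / 10000 * ((m : ℝ) ^ 2 * rgl D k) ≤ ((A k).card : ℝ) := by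
    intro k
    have h5 : (m : ℝ) ^ 2 * qi q 1360 ≤ (m : ℝ) ^ 2 * rgl D k :=
      mul_le_mul_of_nonneg_left (hrgl k).1 hm0.le
    have h6 := hx k
    have h7 := hy k
    have h8 := (hrgl k).1
    exact pick_card q m θ hG X hX (x k) (y k) (rgl D k) (by linarith) (by linarith) (by linarith)
      (hxy k) (by linarith)
  have hpos : ∀ k, 0 < 3 / 10000 * ((m : ℝ) ^ 2 * rgl D k) := by
    intro k
    have := hrpos k
    positivity
  obtain ⟨f, hf, hfA⟩ := hH D.K (Fin (NN m)) A (by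
    intro k
    rw [← card_pos]
    have : (0 : ℝ) < ((A k).card : ℝ) := (hpos k).trans_le (hcard k)
    exact_mod_cast this) (by
    intro t
    refine le_trans (pick_sub _ _ (fun i => by positivity)) ?_
    calc ∑ i, ((A i).card : ℝ)⁻¹ ≤ ∑ i, (10000 / 3 / (m : ℝ) ^ 2) * (1 / rgl D i) := by
          apply sum_le_sum
          intro i _
          have h5 := inv_anti₀ (hpos i) (hcard i)
          refine h5.trans (le_of_eq ?_)
          have := hrpos i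
          field_simp
      _ = (10000 / 3 / (m : ℝ) ^ 2) * ∑ i, 1 / rgl D i := by rw [mul_sum]
      _ ≤ (10000 / 3 / (m : ℝ) ^ 2) * ((m : ℝ) ^ 2 / 10 ^ 5) :=
          mul_le_mul_of_nonneg_left hsum (by positivity)
      _ = 1 / 30 := pick_num _ hm0
      _ ≤ 1 := by norm_num)
  refine ⟨f, hf, fun k => ?_⟩
  have h5 := hfA k
  rw [hA, mem_filter] at h5
  obtain ⟨-, ht1, ht2, ht3, ht4⟩ := h5
  obtain ⟨h6, h7⟩ := hσ k (θ (f k)) ht2 ht3
  have h8 := hx k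
  have h9 := hy k
  exact ⟨ht4, ht1, by linarith, by linarith, h6, h7⟩

end Pool.Agent.Helper72.RA
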