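import Pool.Agent.Helper72.RA.Defs2

set_option autoImplicit false

/-!
# MP_717de3_co: module SROW
-/

namespace Pool.Agent.Helper72.RA

open Real Finset MeasureTheory Filter

open scoped Classical

theorem srow_mul (q a b : ℕ) : qi q (a + b) = qi q a * qi q b := by
  rw [qi, qi, qi, pow_add, mul_inv]

theorem srow_pos (q k : ℕ) (hq : 1 ≤ q) : 0 < qi q k := by
  rw [qi]
  have : (0 : ℝ) < q := by exact_mod_cast hq
  positivity

theorem srow_small (q k : ℕ) (hq : 10 ^ 9 ≤ q) (hk : 1 ≤ k) : qi q k ≤ 1 / 10 ^ 9 := by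
  have hqR : (10 : ℝ) ^ 9 ≤ q := by exact_mod_cast hq
  rw [qi, inv_eq_one_div]
  apply one_div_le_one_div_of_le (by norm_num)
  calc (10 : ℝ) ^ 9 ≤ q := hqR
    _ = (q : ℝ) ^ 1 := (pow_one _).symm
    _ ≤ (q : ℝ) ^ k := pow_le_pow_right₀ (by linarith) hk

/-- the estimate for one vertex -/
theorem srow_one (Q A B D a e d : ℝ) (hQ0 : 0 < Q) (hA0 : 0 < A) (hB0 : 0 < B) (hD0 : 0 < D)
    (hD1 : D ≤ 1 / 10 ^ 9)
    (hBe : B ≤ e) (heA : e ≤ Q * A * D) (hAa : A ≤ a) (ha : a ≤ π / 2)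
    (hd0 : 0 < d) (hd : d ≤ Q * B) (hdA : d ≤ A * D) (he1 : e ≤ 1) :
    |(cos (π - a - d) - cos (π - e) * cos a) / (sin (π - e) * sin a)| ≤ 3 * Q := by
  have hpi : π < 315 / 100 := by have := Real.pi_lt_d2; linarith
  have hpi0 := Real.pi_pos
  have h2pi : 63 / 100 ≤ 2 / π := by
    rw [le_div_iff₀ hpi0]
    linarith
  have he0 : 0 < e := hB0.trans_le hBe
  have ha0 : 0 < a := hA0.trans_le hAa
  have hse : 63 / 100 * e ≤ sin e := by
    have := Real.mul_le_sin he0.le (by have := Real.pi_gt_three; linarith)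
    nlinarith
  have hsa : 63 / 100 * a ≤ sin a := by
    have := Real.mul_le_sin ha0.le ha
    nlinarith
  have hse0 : 0 < sin e := by nlinarith
  have hsa0 : 0 < sin a := by nlinarith
  have h1 : cos (π - a - d) = - cos (a + d) := by
    rw [sub_sub, Real.cos_pi_sub]
  rw [h1, Real.cos_pi_sub, Real.sin_pi_sub, abs_div, abs_of_pos (mul_pos hse0 hsa0),
    div_le_iff₀ (mul_pos hse0 hsa0)]
  have hca : |cos a| ≤ 1 := Real.abs_cos_le_one a
  have hcd0 : 0 ≤ 1 - cos d := by have := Real.cos_le_one d; linarith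
  have hcd : 1 - cos d ≤ d ^ 2 / 2 := by
    have := Real.one_sub_sq_div_two_le_cos (x := d)
    linarith
  have hce0 : 0 ≤ 1 - cos e := by have := Real.cos_le_one e; linarith
  have hce : 1 - cos e ≤ e ^ 2 / 2 := by
    have := Real.one_sub_sq_div_two_le_cos (x := e)
    linarith
  have hsd : |sin d| ≤ d := by
    have := Real.abs_sin_le_abs (x := d)
    rwa [abs_of_pos hd0] at this
  have h2 : -cos (a + d) - -cos e * cos a =
      cos a * (1 - cos d) + sin a * sin d - (1 - cos e) * cos a := by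
    rw [Real.cos_add]
    ring
  have h3 : |-cos (a + d) - -cos e * cos a| ≤ d ^ 2 / 2 + sin a * d + e ^ 2 / 2 := by
    rw [h2]
    have h4 : |cos a * (1 - cos d)| ≤ d ^ 2 / 2 := by
      rw [abs_mul, abs_of_nonneg hcd0]
      nlinarith [abs_nonneg (cos a)]
    have h5 : |sin a * sin d| ≤ sin a * d := by
      rw [abs_mul, abs_of_pos hsa0]
      exact mul_le_mul_of_nonneg_left hsd hsa0.le
    have h6 : |(1 - cos e) * cos a| ≤ e ^ 2 / 2 := by
      rw [abs_mul, abs_of_nonneg hce0]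
      nlinarith [abs_nonneg (cos a)]
    calc |cos a * (1 - cos d) + sin a * sin d - (1 - cos e) * cos a|
        ≤ |cos a * (1 - cos d) + sin a * sin d| + |(1 - cos e) * cos a| := abs_sub _ _
      _ ≤ |cos a * (1 - cos d)| + |sin a * sin d| + |(1 - cos e) * cos a| := by
          gcongr
          exact abs_add_le _ _
      _ ≤ d ^ 2 / 2 + sin a * d + e ^ 2 / 2 := by linarith
  refine h3.trans ?_
  -- (1)
  have hT : 0 < sin e * sin a := mul_pos hse0 hsa0
  have hea : e * a ≤ 3 * (sin e * sin a) := by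
    have h7 : (63 / 100 * e) * (63 / 100 * a) ≤ sin e * sin a :=
      mul_le_mul hse hsa (by positivity) hse0.le
    nlinarith [mul_pos he0 ha0]
  have t1 : sin a * d ≤ 16 / 10 * Q * (sin e * sin a) := by
    have h8 : d ≤ Q * e := hd.trans (mul_le_mul_of_nonneg_left hBe hQ0.le)
    have h9 : Q * e ≤ 16 / 10 * Q * sin e := by
      have : e ≤ 16 / 10 * sin e := by linarith
      nlinarith
    nlinarith
  have t2 : d ^ 2 / 2 ≤ 1 / 10 * Q * (sin e * sin a) := by
    have h8 : d ≤ Q * e := hd.trans (mul_le_mul_of_nonneg_left hBe hQ0.le)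
    have h10 : d ^ 2 ≤ (Q * e) * (A * D) := by
      rw [pow_two]
      exact mul_le_mul h8 hdA hd0.le (by positivity)
    have h11 : (Q * e) * (A * D) ≤ (Q * e) * (a * (1 / 10 ^ 9)) :=
      mul_le_mul_of_nonneg_left (mul_le_mul hAa hD1 hD0.le ha0.le) (by positivity)
    have h12 : Q * (e * a) ≤ Q * (3 * (sin e * sin a)) := mul_le_mul_of_nonneg_left hea hQ0.le
    have h13 : 0 < Q * (sin e * sin a) := mul_pos hQ0 hT
    nlinarith
  have t3 : e ^ 2 / 2 ≤ 3 / 10 * Q * (sin e * sin a) := by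
    have h8 : e ^ 2 ≤ e * (Q * A * D) := by
      rw [pow_two]
      exact mul_le_mul_of_nonneg_left heA he0.le
    have h9 : e * (Q * A * D) ≤ e * (Q * a * (1 / 10 ^ 9)) := by
      apply mul_le_mul_of_nonneg_left _ he0.le
      exact mul_le_mul (mul_le_mul_of_nonneg_left hAa hQ0.le) hD1 hD0.le (by positivity)
    have h12 : Q * (e * a) ≤ Q * (3 * (sin e * sin a)) := mul_le_mul_of_nonneg_left hea hQ0.le
    have h13 : 0 < Q * (sin e * sin a) := mul_pos hQ0 hT
    nlinarith
  nlinarith [mul_pos hQ0 hT]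

theorem st_SROW (hA : ST_ANG) : ST_SROW := by
  filter_upwards [hA, eventually_ge_atTop (10 ^ 9)] with q hAq hq
  intro m hm1 hm2 D θ hG S
  have hq1 : 1 ≤ q := le_trans (by norm_num) hq
  have hqR : (10 : ℝ) ^ 9 ≤ q := by exact_mod_cast hq
  obtain ⟨-, hang⟩ := hAq m hm1 hm2 D
  have hW : WinOK D θ S.ta := fun k hk => ⟨S.ta_lo k hk, S.ta_hi k hk⟩
  obtain ⟨h1, -⟩ := hang θ S.ta hW
  have hsv : S.al D.sv = θ S.ts := by rw [StB.al, if_pos rfl]
  have hal : ∀ k, k ≠ D.sv → S.al k = θ (S.ta k) := fun k hk => by rw [StB.al, if_neg hk]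
  have hterm : ∀ k, k ≠ D.sv → |(cos (θ (S.tb k)) - cos (S.al D.sv) * cos (S.al k)) /
      (sin (S.al D.sv) * sin (S.al k))| ≤ 3 * qi q 525 := by
    intro k hk
    obtain ⟨-, h2, h3, -⟩ := h1 k hk
    have h4 := S.tb_lo k hk
    have h5 := S.tb_hi k hk
    have h6 := hG.top S.ts
    have h7 := S.ts_lo
    have hp := srow_pos q 23 hq1
    have key := srow_one (qi q 525) (qi q 1352 / 10 ^ 0) (qi q 2005) (qi q 92) (θ (S.ta k))
      (π - θ S.ts) (π - θ (S.ta k) - θ (S.tb k)) (srow_pos _ _ hq1)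
      (by rw [pow_zero, div_one]; exact srow_pos _ _ hq1) (srow_pos _ _ hq1)
      (srow_pos _ _ hq1) (srow_small _ _ hq (by norm_num)) (by linarith)
      (by
        rw [pow_zero, div_one, ← srow_mul, ← srow_mul]
        linarith)
      (by rw [pow_zero, div_one]; exact h2) (by linarith) h4
      (by rw [← srow_mul]; exact h5.le)
      (by
        have h8 : qi q 2530 = qi q 1352 * qi q 92 * qi q 1086 := by rw [← srow_mul, ← srow_mul]
        have h9 := srow_small q 1086 hq (by norm_num)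
        have h10 := mul_pos (srow_pos q 1352 hq1) (srow_pos q 92 hq1)
        rw [pow_zero, div_one]
        nlinarith)
      (by
        have h8 := srow_small q 1969 hq (by norm_num)
        linarith)
    rw [hsv, hal k hk]
    have e1 : π - θ (S.ta k) - (π - θ (S.ta k) - θ (S.tb k)) = θ (S.tb k) := by ring
    have e2 : π - (π - θ S.ts) = θ S.ts := by ring
    rw [e1, e2] at key
    exact key
  have hsq : ∀ k ∈ univ.filter (fun k => k ≠ D.sv),
      ((cos (θ (S.tb k)) - cos (S.al D.sv) * cos (S.al k)) /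
          (sin (S.al D.sv) * sin (S.al k))) ^ 2 ≤ 9 * qi q 1050 := by
    intro k hk
    rw [mem_filter] at hk
    have h2 := hterm k hk.2
    have h3 := srow_pos q 525 hq1
    rw [← sq_abs]
    calc |(cos (θ (S.tb k)) - cos (S.al D.sv) * cos (S.al k)) /
          (sin (S.al D.sv) * sin (S.al k))| ^ 2 ≤ (3 * qi q 525) ^ 2 := by gcongr
      _ = 9 * (qi q 525 * qi q 525) := by ring
      _ = 9 * qi q 1050 := by rw [← srow_mul]
  refine (sum_le_card_nsmul _ _ _ hsq).trans ?_
  rw [nsmul_eq_mul]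
  have hc : ((univ.filter (fun k : D.K => k ≠ D.sv)).card : ℝ) ≤ 2 * (q : ℝ) ^ 1000 := by
    have h2 : (univ.filter (fun k : D.K => k ≠ D.sv)).card ≤ m := by
      refine (card_le_univ _).trans ?_
      rw [D.card_K]
      omega
    have h3 : (univ.filter (fun k : D.K => k ≠ D.sv)).card ≤ 2 * q ^ 1000 := h2.trans hm2
    exact_mod_cast h3
  have h0 : (0 : ℝ) < q := by exact_mod_cast hq1
  have hp := srow_pos q 1050 hq1
  have h4 : (q : ℝ) ^ 1000 * qi q 1050 = qi q 50 := by
    have : qi q 1050 = qi q 1000 * qi q 50 := by rw [← srow_mul]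
    rw [this, ← mul_assoc]
    have h5 : (q : ℝ) ^ 1000 * qi q 1000 = 1 := by
      rw [qi]
      exact mul_inv_cancel₀ (pow_ne_zero _ h0.ne')
    rw [h5, one_mul]
  have h5 := srow_small q 50 hq (by norm_num)
  calc ((univ.filter (fun k : D.K => k ≠ D.sv)).card : ℝ) * (9 * qi q 1050)
      ≤ 2 * (q : ℝ) ^ 1000 * (9 * qi q 1050) := by gcongr
    _ = 18 * ((q : ℝ) ^ 1000 * qi q 1050) := by ring
    _ = 18 * qi q 50 := by rw [h4]
    _ ≤ 1 / 1000 := by
      have h6 : (1 : ℝ) / 10 ^ 9 = 1 / 1000000000 := by norm_num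
      rw [h6] at h5
      linarith

end Pool.Agent.Helper72.RA
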